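import Mathlib
import Pool.Agent.H95.Gol.Basic

/-!
Basic definitions for the density theorems on difference sets with Singer parameters
(`v = (n^m-1)/(n-1)`, `m` odd).
-/

namespace Pool.Agent.H95.Sgr

open Finset Pool.Agent.H95.Gol

/-- `(n^m-1)/(n-1)` -/
def vv (m n : ℕ) : ℕ := ∑ i ∈ range m, n ^ i

/-- the sum of `c l * F D l / l` over the primes of the `k`-th block -/
noncomputable def DkC (c : ℕ → ℝ) (D : ℤ) (k : ℕ) : ℝ := ∑ l ∈ PB k, c l * F D l / l

/-- the coefficient `r-1` on the primes which are `1` modulo `r` -/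
noncomputable def cr (r l : ℕ) : ℝ := if l % r = 1 then (r:ℝ) - 1 else 0

/-- the necessary condition on `n` coming from Mann's test: if a prime `q` divides
`(n^m-1)/(n-1)` and a prime `p` divides `n` to an odd power, then `-1` is not a power of `p`
modulo `q` -/
def GoodM (m n : ℕ) : Prop :=
  ∀ p q : ℕ, p.Prime → q.Prime → q ∣ vv m n → Odd (padicValNat p n) →
    ∀ j : ℕ, ((p : ℕ) : ZMod q) ^ j ≠ -1

end Pool.Agent.H95.Sgr
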