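import Mathlib
import Pool.Agent.H12.Brun
import Pool.Agent.H95.Gol.SieveAux
import Pool.Agent.H95.Gol.Sieve
import Pool.Agent.H95.Gol.Count

/-!
The Brun-Hooley upper bound sieve of dimension `κ` for events periodic modulo `p^2`.
-/

namespace Pool.Agent.H95.Sgr

open Finset Classical Pool.Agent.H95.Gol
open Pool.Agent.H12 (esym tsum' bonferroni esym_le esym_nonneg)

lemma block_sum_P (P : Finset ℕ) (K : ℕ) (hP : ∀ p ∈ P, p.Prime ∧ 2 < p ∧ p ≤ bb K) :
    P = (range K).biUnion (fun i => P ∩ PB (K - 1 - i)) := by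
  ext p
  rw [mem_biUnion]
  constructor
  · intro hp
    obtain ⟨h1, h2, h3⟩ := hP p hp
    obtain ⟨k, hk, hpk⟩ := exists_block h1 h2 h3
    refine ⟨K - 1 - k, mem_range.mpr (by omega), ?_⟩
    rw [mem_inter, show K - 1 - (K - 1 - k) = k by omega]
    exact ⟨hp, hpk⟩
  · rintro ⟨i, -, hi⟩
    exact (mem_inter.mp hi).1

/-- the sieve up to `bb K` for primes `≥ 2κ`, in terms of the block sums -/
theorem sieve_blocksK (κ : ℕ) (Lb : ℝ) (hLb : ∀ k : ℕ, ∑ l ∈ PB k, (1:ℝ) / l ≤ Lb) (P : Finset ℕ)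
    (K J : ℕ) (E : ℕ → ℕ → Prop) (g : ℕ → ℕ)
    (hP : ∀ p ∈ P, p.Prime ∧ 2 < p ∧ κ ≤ p ∧ p ≤ bb K)
    (hE : ∀ p ∈ P, ∀ j, E p j ↔ E p (j % p^2))
    (hg : ∀ p ∈ P, ((range (p^2)).filter (E p)).card = g p)
    (hg2 : ∀ p ∈ P, g p ≤ κ * p) :
    (((range J).filter (fun j => ∀ p ∈ P, ¬ E p j)).card : ℝ) ≤
      J * (Real.exp (Real.exp (2 * κ * Lb)) * Real.exp (- ∑ p ∈ P, (g p : ℝ) / p^2)) +
        (bb K : ℝ)^(8 * (κ + 3)) := by
  set Q : ℕ → Finset ℕ := fun i => P ∩ PB (K - 1 - i) with hQ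
  set r : ℕ → ℕ := fun i => 2 * (i + 1) with hr
  have hprime : ∀ p ∈ P, p.Prime := fun p hp => (hP p hp).1
  have hgr : ∀ p ∈ P, (((range (p^2)).filter (E p)).card : ℝ) = (fun p => (g p : ℝ)) p :=
    fun p hp => by rw [hg p hp]
  have hup := hooley_upper J P hprime E hE (fun p => (g p : ℝ)) hgr Q r
    (fun i => ⟨i+1, by simp only [hr]; ring⟩) K (fun i _ => inter_subset_left)
    (fun i hi i' hi' hne => (PB_disjoint (by omega)).mono inter_subset_right inter_subset_right)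
  have hPunion : P = (range K).biUnion Q :=
    block_sum_P P K fun p hp => ⟨(hP p hp).1, (hP p hp).2.1, (hP p hp).2.2.2⟩
  have hdisjQ : ∀ i ∈ (range K : Finset ℕ), ∀ i' ∈ (range K : Finset ℕ), i ≠ i' →
      Disjoint (Q i) (Q i') := by
    intro i hi i' hi' hne
    rw [mem_range] at hi hi'
    exact (PB_disjoint (by omega)).mono inter_subset_right inter_subset_right
  have hδ : ∀ p ∈ P, 0 ≤ (g p : ℝ) / (p:ℝ)^2 ∧ (g p : ℝ) / (p:ℝ)^2 ≤ κ / p := by
    intro p hp
    have hp0 : (0:ℝ) < p := by exact_mod_cast (hprime p hp).pos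
    refine ⟨by positivity, ?_⟩
    rw [div_le_div_iff₀ (by positivity) hp0]
    have : (g p : ℝ) ≤ κ * p := by exact_mod_cast hg2 p hp
    nlinarith
  have hδ1 : ∀ p ∈ P, (g p : ℝ) / (p:ℝ)^2 ≤ 1 := by
    intro p hp
    refine (hδ p hp).2.trans ?_
    have hp0 : (0:ℝ) < p := by exact_mod_cast (hprime p hp).pos
    have : (κ:ℝ) ≤ p := by exact_mod_cast (hP p hp).2.2.1
    rw [div_le_one hp0]; exact this
  have hLb0 : 0 ≤ Lb := le_trans (sum_nonneg fun l _ => by positivity) (hLb 0)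
  have hS : ∀ i, ∑ p ∈ Q i, (g p : ℝ) / (p:ℝ)^2 ≤ κ * Lb := by
    intro i
    calc ∑ p ∈ Q i, (g p : ℝ) / (p:ℝ)^2 ≤ ∑ p ∈ Q i, κ * ((1:ℝ) / p) := by
          refine sum_le_sum fun p hp => ?_
          have := (hδ p (mem_inter.mp hp).1).2
          rw [mul_one_div]; exact this
      _ ≤ ∑ p ∈ PB (K - 1 - i), κ * ((1:ℝ) / p) :=
          sum_le_sum_of_subset_of_nonneg inter_subset_right fun p _ _ => by positivity
      _ = κ * ∑ p ∈ PB (K - 1 - i), (1:ℝ) / p := by rw [mul_sum]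
      _ ≤ κ * Lb := mul_le_mul_of_nonneg_left (hLb (K - 1 - i)) (Nat.cast_nonneg _)
  -- main term
  have hmain : ∏ i ∈ range K, tsum' (Q i) (fun p => (g p : ℝ) / (p:ℝ)^2) (r i) ≤
      Real.exp (Real.exp (2 * κ * Lb)) * Real.exp (- ∑ p ∈ P, (g p : ℝ) / p^2) := by
    set x : ℕ → ℝ := fun i => Real.exp (κ * Lb) * ((κ * Lb)^(r i + 1) / ((r i + 1).factorial : ℝ))
      with hx
    have hx0 : ∀ i, 0 ≤ x i := fun i => by positivity
    have h1 : ∏ i ∈ range K, tsum' (Q i) (fun p => (g p : ℝ) / (p:ℝ)^2) (r i) ≤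
        ∏ i ∈ range K, (Real.exp (-∑ p ∈ Q i, (g p : ℝ) / (p:ℝ)^2) * (1 + x i)) := by
      refine prod_le_prod (fun i _ => ?_) (fun i _ => ?_)
      · have hb := (bonferroni (Q i) (fun p => (g p : ℝ) / (p:ℝ)^2) (fun p hp =>
          ⟨(hδ p (mem_inter.mp hp).1).1, hδ1 p (mem_inter.mp hp).1⟩) (r i)).1
        rw [(show Even (r i) from ⟨i+1, by simp only [hr]; ring⟩).neg_one_pow, one_mul] at hb
        have : 0 ≤ ∏ p ∈ Q i, (1 - (g p : ℝ) / (p:ℝ)^2) :=
          prod_nonneg fun p hp => by linarith [hδ1 p (mem_inter.mp hp).1]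
        linarith
      · exact block_main (Q i) _ (fun p hp => ⟨(hδ p (mem_inter.mp hp).1).1,
          hδ1 p (mem_inter.mp hp).1⟩) (r i) ⟨i+1, by simp only [hr]; ring⟩ (κ * Lb) (hS i)
    refine h1.trans ?_
    rw [prod_mul_distrib, ← Real.exp_sum, sum_neg_distrib, ← sum_biUnion hdisjQ, ← hPunion, mul_comm]
    refine mul_le_mul_of_nonneg_right ?_ (Real.exp_pos _).le
    calc ∏ i ∈ range K, (1 + x i) ≤ ∏ i ∈ range K, Real.exp (x i) :=
          prod_le_prod (fun i _ => by linarith [hx0 i]) (fun i _ => by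
            have := Real.add_one_le_exp (x i); linarith)
      _ = Real.exp (∑ i ∈ range K, x i) := by rw [Real.exp_sum]
      _ ≤ Real.exp (Real.exp (2 * κ * Lb)) := by
          apply Real.exp_le_exp.mpr
          rw [hx, ← mul_sum]
          have h2 : ∑ i ∈ range K, (κ * Lb)^(r i + 1) / ((r i + 1).factorial : ℝ) ≤
              Real.exp (κ * Lb) := by
            have hinj : Set.InjOn (fun i => r i + 1) (range K : Finset ℕ) := by
              intro a _ b _ hab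
              simp only [hr] at hab
              omega
            rw [← sum_image (f := fun t : ℕ => (κ * Lb)^t / (t.factorial : ℝ)) hinj]
            exact pow_div_fact_le (κ * Lb) (by positivity) 0 _
          calc Real.exp (κ * Lb) * ∑ i ∈ range K, (κ * Lb)^(r i + 1) / ((r i + 1).factorial : ℝ)
              ≤ Real.exp (κ * Lb) * Real.exp (κ * Lb) :=
                mul_le_mul_of_nonneg_left h2 (Real.exp_pos _).le
            _ = Real.exp (2 * κ * Lb) := by rw [← Real.exp_add]; congr 1; ring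
  -- error term
  have herr : ∏ i ∈ range K, Bd (Q i) (fun p => (g p : ℝ)) (r i) ≤ (bb K : ℝ)^(8 * (κ + 3)) := by
    have h1 : ∀ i ∈ range K, Bd (Q i) (fun p => (g p : ℝ)) (r i) ≤
        (2:ℝ)^(2 * (κ + 3) * ((i+1) * 2^(K-i))) := by
      intro i hi
      rw [mem_range] at hi
      set y : ℕ := bb (K - i) with hy
      have hy2 : 2 ≤ y := two_le_bb _
      have hsub : Q i ⊆ range (y + 1) := by
        intro p hp
        have := (mem_PB.mp (mem_inter.mp hp).2).1.2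
        rw [show K - 1 - i + 1 = K - i by omega] at this
        rw [mem_range]; omega
      have hsum : 1 + ∑ p ∈ Q i, (g p : ℝ) ≤ ((y:ℝ)^(κ + 3)) := by
        have h2 : ∑ p ∈ Q i, (g p : ℝ) ≤ ∑ p ∈ Q i, (κ * (y:ℝ)) := by
          refine sum_le_sum fun p hp => ?_
          have h3 : (g p : ℝ) ≤ κ * p := by exact_mod_cast hg2 p (mem_inter.mp hp).1
          have h4 : (p:ℝ) ≤ y := by
            have := mem_range.mp (hsub hp)
            exact_mod_cast (by omega : p ≤ y)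
          have h5 : (κ:ℝ) * p ≤ κ * y := mul_le_mul_of_nonneg_left h4 (Nat.cast_nonneg _)
          linarith
        rw [sum_const, nsmul_eq_mul] at h2
        have h5 : ((Q i).card : ℝ) ≤ y := by
          have h6 : Q i ⊆ Ioc 0 y := by
            intro p hp
            have a := mem_range.mp (hsub hp)
            have b := (hprime p (mem_inter.mp hp).1).pos
            rw [mem_Ioc]; omega
          have := card_le_card h6
          rw [Nat.card_Ioc] at this
          exact_mod_cast (by omega : (Q i).card ≤ y)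
        have hyr : (2:ℝ) ≤ y := by exact_mod_cast hy2
        have h7 : ((Q i).card : ℝ) * (κ * (y:ℝ)) ≤ y * (κ * y) :=
          mul_le_mul_of_nonneg_right h5 (by positivity)
        have h8 : (κ:ℝ) + 1 ≤ 2^κ := by
          have : κ < 2^κ := Nat.lt_two_pow_self
          exact_mod_cast this
        have h9 : (2:ℝ)^κ ≤ (y:ℝ)^κ := pow_le_pow_left₀ (by norm_num) hyr κ
        have h10 : 1 + y * (κ * (y:ℝ)) ≤ (κ + 1) * (y:ℝ)^3 := by
          have h11 : (1:ℝ) ≤ (y:ℝ)^3 := one_le_pow₀ (by linarith)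
          have h12 : (y:ℝ) * (κ * y) ≤ κ * (y:ℝ)^3 := by
            have : (y:ℝ)^2 ≤ (y:ℝ)^3 := pow_le_pow_right₀ (by linarith) (by norm_num)
            calc (y:ℝ) * (κ * y) = κ * (y:ℝ)^2 := by ring
              _ ≤ κ * (y:ℝ)^3 := mul_le_mul_of_nonneg_left this (Nat.cast_nonneg _)
          linarith
        calc 1 + ∑ p ∈ Q i, (g p : ℝ) ≤ 1 + y * (κ * (y:ℝ)) := by linarith
          _ ≤ (κ + 1) * (y:ℝ)^3 := h10
          _ ≤ (y:ℝ)^κ * (y:ℝ)^3 :=
              mul_le_mul_of_nonneg_right (h8.trans h9) (by positivity)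
          _ = (y:ℝ)^(κ + 3) := by rw [pow_add]
      refine (block_err (Q i) _ (fun p _ => Nat.cast_nonneg _) (r i) _ hsum).trans (le_of_eq ?_)
      rw [hy]
      unfold bb
      push_cast
      rw [← pow_mul, ← pow_mul]
      congr 1
      simp only [hr]
      ring
    calc ∏ i ∈ range K, Bd (Q i) (fun p => (g p : ℝ)) (r i) ≤
          ∏ i ∈ range K, (2:ℝ)^(2 * (κ + 3) * ((i+1) * 2^(K-i))) :=
          prod_le_prod (fun i _ => Bd_nonneg _ _ (fun p _ => Nat.cast_nonneg _) _) h1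
      _ = (2:ℝ)^(∑ i ∈ range K, 2 * (κ + 3) * ((i+1) * 2^(K-i))) := by rw [prod_pow_eq_pow_sum]
      _ ≤ (2:ℝ)^(8 * (κ + 3) * 2^K) := by
          refine pow_le_pow_right₀ (by norm_num) ?_
          rw [← mul_sum]
          have := geom_exp K
          calc 2 * (κ + 3) * ∑ i ∈ range K, (i+1) * 2^(K-i) ≤ 2 * (κ + 3) * (4 * 2^K) :=
                Nat.mul_le_mul_left _ (by omega)
            _ = 8 * (κ + 3) * 2^K := by ring
      _ = (bb K : ℝ)^(8 * (κ + 3)) := by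
          unfold bb
          push_cast
          rw [← pow_mul]
          congr 1
          ring
  have hJ : (0:ℝ) ≤ J := Nat.cast_nonneg _
  have := mul_le_mul_of_nonneg_left hmain hJ
  linarith

/-- S1: the sieve of dimension `κ` -/
theorem sieveK (hblk : ∃ C : ℝ, 0 < C ∧ ∀ k : ℕ,
      |∑ l ∈ PB k, (1:ℝ) / l - Real.log 2| ≤ C / 2 ^ k) (κ : ℕ) :
    ∃ (A : ℕ) (C : ℝ), 0 < C ∧ ∀ (P : Finset ℕ) (K J : ℕ) (E : ℕ → ℕ → Prop)
    (g : ℕ → ℕ), (bb K)^A ≤ J → (∀ p ∈ P, p.Prime ∧ 2 < p ∧ κ ≤ p ∧ p ≤ bb K) →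
    (∀ p ∈ P, ∀ j, E p j ↔ E p (j % p^2)) →
    (∀ p ∈ P, ((range (p^2)).filter (E p)).card = g p) →
    (∀ p ∈ P, g p ≤ κ * p) →
    (((range J).filter (fun j => ∀ p ∈ P, ¬ E p j)).card : ℝ) ≤
      C * J * Real.exp (- ∑ p ∈ P, (g p : ℝ) / p^2) := by
  obtain ⟨C0, hC0, hb⟩ := hblk
  set Lb : ℝ := Real.log 2 + C0 with hLb
  have hbu : ∀ k, ∑ l ∈ PB k, (1:ℝ) / l ≤ Real.log 2 + C0 / 2 ^ k := fun k => by
    have := (abs_le.mp (hb k)).2
    linarith
  have hLbk : ∀ k : ℕ, ∑ l ∈ PB k, (1:ℝ) / l ≤ Lb := fun k => by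
    refine (hbu k).trans ?_
    have h1 : (1:ℝ) ≤ 2 ^ k := one_le_pow₀ (by norm_num)
    have : C0 / 2 ^ k ≤ C0 := div_le_self hC0.le h1
    linarith
  set E0 : ℝ := Real.exp (Real.exp (2 * κ * Lb)) with hE0
  have hE0pos : 0 < E0 := Real.exp_pos _
  refine ⟨8 * (κ + 3) + κ, E0 + Real.exp (2 * κ * C0), by positivity, ?_⟩
  intro P K J E g hJ hP hE hg hg2
  have hs := sieve_blocksK κ Lb hLbk P K J E g hP hE hg hg2
  have hPsum : ∑ p ∈ P, (g p : ℝ) / (p:ℝ)^2 ≤ κ * (K * Real.log 2 + 2 * C0) := by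
    have h1 : P ⊆ (range K).biUnion PB := by
      intro p hp
      obtain ⟨k, hk, hpk⟩ := exists_block (hP p hp).1 (hP p hp).2.1 (hP p hp).2.2.2
      exact mem_biUnion.mpr ⟨k, mem_range.mpr hk, hpk⟩
    calc ∑ p ∈ P, (g p : ℝ) / (p:ℝ)^2 ≤ ∑ p ∈ P, κ * ((1:ℝ) / p) := by
          refine sum_le_sum fun p hp => ?_
          have hp0 : (0:ℝ) < p := by exact_mod_cast (hP p hp).1.pos
          rw [mul_one_div, div_le_div_iff₀ (by positivity) hp0]
          have : (g p : ℝ) ≤ κ * p := by exact_mod_cast hg2 p hp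
          nlinarith
      _ ≤ ∑ p ∈ (range K).biUnion PB, κ * ((1:ℝ) / p) :=
          sum_le_sum_of_subset_of_nonneg h1 fun p _ _ => by positivity
      _ = ∑ k ∈ range K, ∑ p ∈ PB k, κ * ((1:ℝ) / p) :=
          sum_biUnion fun a _ b _ hab => PB_disjoint hab
      _ = κ * ∑ k ∈ range K, ∑ p ∈ PB k, (1:ℝ) / p := by
          rw [mul_sum]
          exact sum_congr rfl fun k _ => by rw [mul_sum]
      _ ≤ κ * ∑ k ∈ range K, (Real.log 2 + C0 * (1 / 2 ^ k)) := by
          refine mul_le_mul_of_nonneg_left (sum_le_sum fun k _ => ?_) (Nat.cast_nonneg _)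
          have := hbu k
          rw [mul_one_div]; exact this
      _ = κ * (K * Real.log 2 + C0 * ∑ k ∈ Ico 0 K, 1 / 2 ^ k) := by
          rw [sum_add_distrib, sum_const, card_range, nsmul_eq_mul, ← mul_sum,
            Nat.Ico_zero_eq_range]
      _ ≤ κ * (K * Real.log 2 + 2 * C0) := by
          refine mul_le_mul_of_nonneg_left ?_ (Nat.cast_nonneg _)
          have := geom_half' 0 K
          rw [pow_zero, div_one] at this
          nlinarith
  set X : ℝ := Real.exp (- ∑ p ∈ P, (g p : ℝ) / (p:ℝ)^2) with hX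
  have hJ0 : (0:ℝ) ≤ J := Nat.cast_nonneg _
  have h2K : (1:ℝ) / 2^(κ * K) ≤ Real.exp (2 * κ * C0) * X := by
    have h4 : (1:ℝ) / 2^(κ * K) = Real.exp (-(κ * (K * Real.log 2))) := by
      rw [Real.exp_neg, ← one_div]
      congr 1
      rw [show (κ:ℝ) * (K * Real.log 2) = ((κ * K : ℕ) : ℝ) * Real.log 2 by push_cast; ring,
        Real.exp_nat_mul, Real.exp_log (by norm_num)]
    rw [h4, hX, ← Real.exp_add]
    apply Real.exp_le_exp.mpr
    linarith
  have herr : (bb K : ℝ)^(8 * (κ + 3)) ≤ J * (1 / 2^(κ * K)) := by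
    rw [mul_one_div, le_div_iff₀ (by positivity)]
    have h1 : (2:ℝ)^(κ * K) ≤ (bb K : ℝ)^κ := by
      rw [mul_comm κ K, pow_mul]
      refine pow_le_pow_left₀ (by positivity) ?_ κ
      have h3 : 2^K ≤ bb K := by
        have h5 : 2^K ≤ 4^K := Nat.pow_le_pow_left (by norm_num) K
        exact h5.trans (four_pow_le_bb K)
      exact_mod_cast h3
    calc (bb K : ℝ)^(8 * (κ + 3)) * 2^(κ * K) ≤ (bb K : ℝ)^(8 * (κ + 3)) * (bb K : ℝ)^κ :=
          mul_le_mul_of_nonneg_left h1 (by positivity)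
      _ = (bb K : ℝ)^(8 * (κ + 3) + κ) := by rw [pow_add]
      _ ≤ J := by exact_mod_cast hJ
  calc (((range J).filter (fun j => ∀ p ∈ P, ¬ E p j)).card : ℝ)
      ≤ J * (E0 * X) + (bb K : ℝ)^(8 * (κ + 3)) := hs
    _ ≤ J * (E0 * X) + J * (Real.exp (2 * κ * C0) * X) := by
        have := mul_le_mul_of_nonneg_left h2K hJ0
        linarith
    _ = (E0 + Real.exp (2 * κ * C0)) * J * X := by ring

/-- the statement of `countK` for given constants -/
def CountK (κ A : ℕ) (C : ℝ) : Prop :=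
  ∀ (M b N K : ℕ) (P : Finset ℕ) (E : ℕ → ℕ → Prop) (g : ℕ → ℕ), 0 < M → (bb K)^A * M ≤ N →
    (∀ l ∈ P, l.Prime ∧ 2 < l ∧ κ ≤ l ∧ l ≤ bb K ∧ ¬ l ∣ M) →
    (∀ l ∈ P, ∀ x, E l x ↔ E l (x % l^2)) →
    (∀ l ∈ P, ((range (l^2)).filter (E l)).card = g l) →
    (∀ l ∈ P, g l ≤ κ * l) →
    (((Icc 1 N).filter (fun n => n % M = b % M ∧ ∀ l ∈ P, ¬ E l n)).card : ℝ) ≤
      C * (N / M) * Real.exp (- ∑ l ∈ P, (g l : ℝ) / l^2)

/-- S2: the sieve in a residue class -/
theorem countK (hblk : ∃ C : ℝ, 0 < C ∧ ∀ k : ℕ,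
      |∑ l ∈ PB k, (1:ℝ) / l - Real.log 2| ≤ C / 2 ^ k) (κ : ℕ) :
    ∃ (A : ℕ) (C : ℝ), 0 < C ∧ CountK κ A C := by
  obtain ⟨A, C, hC, hs⟩ := sieveK hblk κ
  refine ⟨A, 2 * C, by positivity, ?_⟩
  intro M b N K P E g hM hN hP hE hg hg2
  set J := N / M + 1 with hJ
  set w0 := b % M with hw0
  -- the events for `j`
  have hE' : ∀ l ∈ P, ∀ j, E l (w0 + M * j) ↔ E l (w0 + M * (j % l^2)) := by
    intro l hl j
    have hmod : w0 + M * j ≡ w0 + M * (j % l^2) [MOD l^2] :=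
      (Nat.ModEq.mul_left M (Nat.mod_modEq j (l^2)).symm).add_left w0
    rw [hE l hl (w0 + M * j), hE l hl (w0 + M * (j % l^2))]
    rw [hmod]
  have hcard' : ∀ l ∈ P, ((range (l^2)).filter (fun j => E l (w0 + M * j))).card = g l := by
    intro l hl
    have hcop : Nat.Coprime M (l^2) := by
      refine Nat.Coprime.pow_right 2 ?_
      rw [Nat.coprime_comm, (hP l hl).1.coprime_iff_not_dvd]
      exact (hP l hl).2.2.2.2
    rw [← hg l hl]
    exact card_affine M w0 (l^2) hcop (E l) (hE l hl)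
  have hJA : (bb K)^A ≤ J := by
    have : (bb K)^A ≤ N / M := by
      rw [Nat.le_div_iff_mul_le hM]; exact hN
    omega
  have hfin := hs P K J (fun l j => E l (w0 + M * j)) g hJA
    (fun l hl => ⟨(hP l hl).1, (hP l hl).2.1, (hP l hl).2.2.1, (hP l hl).2.2.2.1⟩)
    hE' hcard' hg2
  have hScard : (((Icc 1 N).filter (fun n => n % M = b % M ∧ ∀ l ∈ P, ¬ E l n)).card : ℝ) ≤
      (((range J).filter (fun j => ∀ l ∈ P, ¬ E l (w0 + M * j))).card : ℝ) := by
    refine Nat.cast_le.mpr ?_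
    refine card_le_card_of_injOn (fun n => n / M) ?_ ?_
    · intro n hn
      rw [mem_coe, mem_filter, mem_Icc] at hn
      rw [mem_coe, mem_filter, mem_range]
      have hne : n = w0 + M * (n / M) := by
        rw [hw0, ← hn.2.1]; exact (Nat.mod_add_div n M).symm
      refine ⟨?_, ?_⟩
      · have : n / M ≤ N / M := Nat.div_le_div_right hn.1.2
        show n / M < J
        omega
      · intro l hl
        show ¬ E l (w0 + M * (n / M))
        rw [← hne]
        exact hn.2.2 l hl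
    · intro n hn n' hn' hnn
      rw [mem_coe, mem_filter] at hn hn'
      simp only at hnn
      have h1 : n = b % M + M * (n / M) := by
        rw [← hn.2.1]; exact (Nat.mod_add_div n M).symm
      have h2 : n' = b % M + M * (n' / M) := by
        rw [← hn'.2.1]; exact (Nat.mod_add_div n' M).symm
      rw [h1, h2, hnn]
  have hJr : (J:ℝ) ≤ 2 * (N / M) := by
    have hM' : (0:ℝ) < M := by exact_mod_cast hM
    have h1 : (1:ℝ) ≤ (N:ℝ) / M := by
      rw [le_div_iff₀ hM', one_mul]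
      have h2 : M ≤ N := by
        refine le_trans ?_ hN
        exact Nat.le_mul_of_pos_left _ (pow_pos (bb_pos K) _)
      exact_mod_cast h2
    have h3 : ((N / M : ℕ) : ℝ) ≤ (N:ℝ) / (M:ℝ) := Nat.cast_div_le
    rw [hJ, Nat.cast_add, Nat.cast_one]
    linarith
  refine hScard.trans (hfin.trans ?_)
  calc C * J * Real.exp (- ∑ l ∈ P, (g l : ℝ) / (l:ℝ)^2)
      ≤ C * (2 * (N / M)) * Real.exp (- ∑ l ∈ P, (g l : ℝ) / (l:ℝ)^2) :=
        mul_le_mul_of_nonneg_right (mul_le_mul_of_nonneg_left hJr hC.le) (Real.exp_pos _).le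
    _ = _ := by ring

end Pool.Agent.H95.Sgr
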